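import Pool.Agent.Lib.MP_6a79cf_pr.M15
import Pool.Agent.Lib.MP_6a79cf_pr.M16

/-!
# Every extremal translation invariant Gibbs state of the Potts model has one dominant colour

For every dimension `d ≥ 1`, every number `q ≥ 2` of colours and every `β > 0`, every extremal translation invariant Gibbs
state `π` of the Potts model on `ℤ^d` has a colour `i` such that `π` is invariant under all permutations of the other colours, and
`m(β-) ≤ π(σ₀ = i) ≤ m(β)`, where `m(β)` is the magnetisation of the state `π^i_β` with the boundary condition `i`. So above the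
critical point exactly one colour has probability more than `1/q` at the origin, and the others are exchangeable: there are no
states with several dominant colours or with a partial breaking of the symmetry.

Method. Couple `π` with bond variables (Edwards, Sokal). Two colours cannot both have infinite clusters: if the colour `c₂` of the
clusters which touch the boundary of a large box is replaced by `c₁`, the weight does not change and the map is injective for a
given boundary condition, so with a probability which is at least exponentially small in the boundary only there would be a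
positive density of closed edges between different boundary clusters of the same colour; but given the colours the bonds are
independent, and an exploration of the clusters (Wald's identity, Chernoff's bound, union bound over `2^|boundary|` cuts)
gives an upper bound which is exponentially small in the volume, uniformly in the boundary condition. If only the colour `i` has
infinite clusters, the state is symmetric in the other colours, and its bonds dominate the free random cluster measure, which
dominates the wired one at a smaller temperature parameter. The comparison theorems for random cluster measures are proved by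
counting in finite abelian groups of colourings.
-/

set_option autoImplicit false

open scoped Classical ENNReal
open MeasureTheory Filter Topology

namespace Pool.Agent.Results.MP_6a79cf_pr.OneColour

variable {d q : ℕ}

/-- The edges of `ℤ^d` which touch the finite set `D`. The edge `(x, i)` joins `x` and `x + e_i`. -/
noncomputable def touching (D : Finset (Fin d → ℤ)) : Finset ((Fin d → ℤ) × Fin d) :=
  D.biUnion fun x => Finset.univ.biUnion fun i => {(x, i), (x - Pi.single i 1, i)}

/-- The number of edges which touch `D` and whose ends have the same colour. -/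
noncomputable def agreeing (D : Finset (Fin d → ℤ)) (σ : (Fin d → ℤ) → Fin q) : ℕ :=
  ((touching D).filter fun e => σ e.1 = σ (e.1 + Pi.single e.2 1)).card

/-- The colouring which is `s` on `D` and `τ` outside of `D`. -/
noncomputable def extend (D : Finset (Fin d → ℤ)) (τ : (Fin d → ℤ) → Fin q) (s : D → Fin q) :
    (Fin d → ℤ) → Fin q :=
  fun x => if h : x ∈ D then s ⟨x, h⟩ else τ x

/-- The Potts measure of the event `A` in the volume `D` with the boundary condition `τ`. (`D` is `Λ \ ∂Λ` in the notation of the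
problem; the edges between two vertices of `∂Λ` do not change the measure.) -/
noncomputable def potts (β : ℝ) (D : Finset (Fin d → ℤ)) (τ : (Fin d → ℤ) → Fin q)
    (A : Set ((Fin d → ℤ) → Fin q)) : ℝ :=
  (∑ s : D → Fin q, if extend D τ s ∈ A then Real.exp (β * agreeing D (extend D τ s)) else 0) /
    ∑ s : D → Fin q, Real.exp (β * agreeing D (extend D τ s))

/-- Gibbs states: for every box `D` and every event `A` the conditional probability of `A` given the colours outside of `D` is
`potts β D τ A`. (`B` ranges over the events which do not depend on the colours in `D`.) -/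
structure IsGibbs (β : ℝ) (π : Measure ((Fin d → ℤ) → Fin q)) : Prop where
  prob : IsProbabilityMeasure π
  dlr : ∀ (a b : Fin d → ℤ) (A B : Set ((Fin d → ℤ) → Fin q)), MeasurableSet A → MeasurableSet B →
    (∀ σ σ' : (Fin d → ℤ) → Fin q, (∀ x, x ∉ Finset.Icc a b → σ x = σ' x) → (σ ∈ B ↔ σ' ∈ B)) →
    π (A ∩ B) = ∫⁻ τ in B, ENNReal.ofReal (potts β (Finset.Icc a b) τ A) ∂π

/-- Translation invariant Gibbs states. -/
structure IsTIGibbs (β : ℝ) (π : Measure ((Fin d → ℤ) → Fin q)) : Prop where
  gibbs : IsGibbs β π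
  inv : ∀ z : Fin d → ℤ, π.map (fun σ x => σ (x + z)) = π

/-- Extreme points of the convex set of translation invariant Gibbs states. -/
structure IsExtremal (β : ℝ) (π : Measure ((Fin d → ℤ) → Fin q)) : Prop where
  tig : IsTIGibbs β π
  ext : ∀ (π₁ π₂ : Measure ((Fin d → ℤ) → Fin q)) (t : ℝ≥0∞), IsTIGibbs β π₁ → IsTIGibbs β π₂ →
    0 < t → t < 1 → π = t • π₁ + (1 - t) • π₂ → π₁ = π

/-- `m` is the magnetisation `π^i_β(σ₀ = i)`, the limit over the boxes `{-n, ..., n}^d` with boundary condition `i`. -/
def IsMagnetisation (d : ℕ) (β : ℝ) (i : Fin q) (m : ℝ) : Prop :=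
  Tendsto (fun n : ℕ => potts β (Finset.Icc (fun _ : Fin d => -(n : ℤ)) (fun _ => (n : ℤ)))
    (fun _ => i) {σ | σ 0 = i}) atTop (𝓝 m)

/-- `i` is the only colour with probability more than `1/q` at the origin, and all others have less. -/
def Dominates (i : Fin q) (π : Measure ((Fin d → ℤ) → Fin q)) : Prop :=
  1 / (q : ℝ) < (π {σ | σ 0 = i}).toReal ∧ ∀ j, j ≠ i → (π {σ | σ 0 = j}).toReal < 1 / (q : ℝ)

private theorem touching_lib (D : Finset (Fin d → ℤ)) :
    touching D = Pool.Agent.Lib.MP_6a79cf_pr.tch D := by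
  ext e
  unfold touching Pool.Agent.Lib.MP_6a79cf_pr.tch
  simp only [Finset.mem_biUnion, Finset.mem_univ, true_and, Finset.mem_insert, Finset.mem_singleton]

private theorem agreeing_lib (D : Finset (Fin d → ℤ)) (σ : (Fin d → ℤ) → Fin q) :
    agreeing D σ = (Pool.Agent.Lib.MP_6a79cf_pr.agr Pool.Agent.Lib.MP_6a79cf_pr.hd
      Pool.Agent.Lib.MP_6a79cf_pr.tl (Pool.Agent.Lib.MP_6a79cf_pr.tch D) σ).card := by
  unfold agreeing Pool.Agent.Lib.MP_6a79cf_pr.agr Pool.Agent.Lib.MP_6a79cf_pr.hd
    Pool.Agent.Lib.MP_6a79cf_pr.tl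
  rw [touching_lib]
  congr 1
  ext e
  simp only [Finset.mem_filter]

private theorem extend_lib (D : Finset (Fin d → ℤ)) (τ : (Fin d → ℤ) → Fin q) (s : D → Fin q) :
    extend D τ s = Pool.Agent.Lib.MP_6a79cf_pr.ext D τ s := by
  funext x
  unfold extend Pool.Agent.Lib.MP_6a79cf_pr.ext
  by_cases h : x ∈ D
  · rw [dif_pos h, dif_pos h]
  · rw [dif_neg h, dif_neg h]

private theorem potts_lib (β : ℝ) (D : Finset (Fin d → ℤ)) (τ : (Fin d → ℤ) → Fin q)
    (A : Set ((Fin d → ℤ) → Fin q)) :
    potts β D τ A = Pool.Agent.Lib.MP_6a79cf_pr.potts β D τ A := by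
  unfold potts Pool.Agent.Lib.MP_6a79cf_pr.potts
  simp only [extend_lib, agreeing_lib]

private theorem gibbs_lib {β : ℝ} {π : Measure ((Fin d → ℤ) → Fin q)} :
    IsGibbs β π ↔ Pool.Agent.Lib.MP_6a79cf_pr.Gibbs β π := by
  constructor
  · intro h
    refine ⟨h.prob, fun a b A B hA hB hAB => ?_⟩
    rw [h.dlr a b A B hA hB hAB]
    simp only [potts_lib]
  · intro h
    refine ⟨h.prob, fun a b A B hA hB hAB => ?_⟩
    rw [h.dlr a b A B hA hB hAB]
    simp only [potts_lib]

private theorem tig_lib {β : ℝ} {π : Measure ((Fin d → ℤ) → Fin q)} :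
    IsTIGibbs β π ↔ Pool.Agent.Lib.MP_6a79cf_pr.TIG β π :=
  ⟨fun h => ⟨gibbs_lib.1 h.gibbs, h.inv⟩, fun h => ⟨gibbs_lib.2 h.gibbs, h.ti⟩⟩

private theorem ext_lib {β : ℝ} {π : Measure ((Fin d → ℤ) → Fin q)} (h : IsExtremal β π) :
    Pool.Agent.Lib.MP_6a79cf_pr.XTIG β π :=
  ⟨tig_lib.1 h.tig, fun π₁ π₂ t h₁ h₂ => h.ext π₁ π₂ t (tig_lib.2 h₁) (tig_lib.2 h₂)⟩

private theorem mag_lib (d : ℕ) (β : ℝ) (i : Fin q) (m : ℝ) : IsMagnetisation d β i m ↔
    Tendsto (fun n => Pool.Agent.Lib.MP_6a79cf_pr.potts β (Pool.Agent.Lib.MP_6a79cf_pr.box d n)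
      (fun _ => i) {σ | σ 0 = i}) atTop (𝓝 m) := by
  unfold IsMagnetisation Pool.Agent.Lib.MP_6a79cf_pr.box
  simp only [potts_lib]

private theorem zero_mem (d n : ℕ) : (0 : Fin d → ℤ) ∈ Pool.Agent.Lib.MP_6a79cf_pr.box d n := by
  unfold Pool.Agent.Lib.MP_6a79cf_pr.box
  rw [Finset.mem_Icc, Pi.le_def, Pi.le_def]
  exact ⟨fun _ => by simp, fun _ => by simp⟩

private theorem dominates (hq : 2 ≤ q) (π : Measure ((Fin d → ℤ) → Fin q)) [IsProbabilityMeasure π]
    (i : Fin q) (hs : ∀ g : Equiv.Perm (Fin q), g i = i → π.map (fun σ x => g (σ x)) = π)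
    (h : 1 / (q : ℝ) < (π {σ | σ 0 = i}).toReal) : Dominates i π := by
  refine ⟨h, fun j hj => ?_⟩
  have hm : ∀ k : Fin q, MeasurableSet {σ : (Fin d → ℤ) → Fin q | σ 0 = k} := fun k => by
    have h1 : Measurable fun σ : (Fin d → ℤ) → Fin q => σ 0 := measurable_pi_apply 0
    exact h1 (measurableSet_singleton k)
  have h1 : ∀ k : Fin q, k ≠ i → (π {σ | σ 0 = k}).toReal = (π {σ | σ 0 = j}).toReal := by
    intro k hk
    have h2 := hs (Equiv.swap j k) (Equiv.swap_apply_of_ne_of_ne hj.symm hk.symm)
    have h3 : Measurable fun (σ : (Fin d → ℤ) → Fin q) x => Equiv.swap j k (σ x) :=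
      measurable_pi_lambda _ fun x => (measurable_of_countable _).comp (measurable_pi_apply x)
    have h4 : π {σ | σ 0 = k} = π {σ | σ 0 = j} := by
      conv_lhs => rw [← h2]
      rw [Measure.map_apply h3 (hm k)]
      congr 1
      ext σ
      show Equiv.swap j k (σ 0) = k ↔ σ 0 = j
      constructor
      · intro h5
        have h6 := congrArg (Equiv.swap j k) h5
        rwa [Equiv.swap_apply_self, Equiv.swap_apply_right] at h6
      · intro h5
        rw [h5, Equiv.swap_apply_left]
    rw [h4]
  have h2 : ∑ k : Fin q, (π {σ | σ 0 = k}).toReal = 1 := by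
    have h3 := measureReal_biUnion_finset (μ := π) (s := (Finset.univ : Finset (Fin q)))
      (f := fun k => {σ : (Fin d → ℤ) → Fin q | σ 0 = k}) (by
        intro a _ b _ hab
        refine Set.disjoint_left.2 fun σ ha hb => hab ?_
        have ha' : σ 0 = a := ha
        have hb' : σ 0 = b := hb
        rw [← ha', hb']) (fun k _ => hm k)
    have h4 : (⋃ k ∈ (Finset.univ : Finset (Fin q)), {σ : (Fin d → ℤ) → Fin q | σ 0 = k}) =
        Set.univ := by
      ext σ
      simp
    rw [h4] at h3
    have h5 : π.real (Set.univ : Set ((Fin d → ℤ) → Fin q)) = 1 := by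
      unfold Measure.real
      rw [measure_univ]
      rfl
    rw [h5] at h3
    exact h3.symm
  rw [← Finset.add_sum_erase _ _ (Finset.mem_univ i), Finset.sum_congr rfl
    (fun k hk => h1 k (Finset.ne_of_mem_erase hk)), Finset.sum_const, Finset.card_erase_of_mem
    (Finset.mem_univ i), Finset.card_univ, Fintype.card_fin, nsmul_eq_mul,
    Nat.cast_sub (by omega : 1 ≤ q), Nat.cast_one] at h2
  have hq' : (2 : ℝ) ≤ q := by exact_mod_cast hq
  rw [div_lt_iff₀ (by linarith)] at h
  rw [lt_div_iff₀ (by linarith)]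
  nlinarith

/-- **Every extremal translation invariant Gibbs state of the Potts model has one dominant colour.** For all `d ≥ 1`, `q ≥ 2` the
magnetisations `m β` exist, and for all `β > 0` and every extremal translation invariant Gibbs state `π` there is a colour `i` with:
`π` is invariant under all permutations of the colours which fix `i`; `m β' ≤ π(σ₀ = i)` for all `β' < β`; `π(σ₀ = i) ≤ m β`; `i`
dominates or `π` is invariant under all permutations of the colours; `i` dominates if `m β' > 1/q` for some `β' < β`. -/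
theorem result (d q : ℕ) (hd : 1 ≤ d) (hq : 2 ≤ q) :
    ∃ m : ℝ → ℝ, (∀ β, 0 < β → ∀ i : Fin q, IsMagnetisation d β i (m β)) ∧
      ∀ β, 0 < β → ∀ π : Measure ((Fin d → ℤ) → Fin q), IsExtremal β π →
        ∃ i : Fin q,
          (∀ g : Equiv.Perm (Fin q), g i = i → π.map (fun σ x => g (σ x)) = π) ∧
          (∀ β', 0 < β' → β' < β → m β' ≤ (π {σ | σ 0 = i}).toReal) ∧
          (π {σ | σ 0 = i}).toReal ≤ m β ∧
          (Dominates i π ∨ ∀ g : Equiv.Perm (Fin q), π.map (fun σ x => g (σ x)) = π) ∧
          ((∃ β', 0 < β' ∧ β' < β ∧ 1 / (q : ℝ) < m β') → Dominates i π) := by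
  haveI : NeZero q := ⟨by omega⟩
  have hm : ∃ m : ℝ → ℝ, ∀ β, 0 < β → ∀ i : Fin q, IsMagnetisation d β i (m β) := by
    have h1 : ∀ β : ℝ, ∃ m : ℝ, 0 < β → IsMagnetisation d β (0 : Fin q) m := by
      intro β
      by_cases hβ : 0 < β
      · obtain ⟨m, hm⟩ := Pool.Agent.Lib.MP_6a79cf_pr.mag_lim (d := d) β hβ (0 : Fin q)
        exact ⟨m, fun _ => (mag_lib d β 0 m).2 hm⟩
      · exact ⟨0, fun h => absurd h hβ⟩
    choose m hm using h1
    refine ⟨m, fun β hβ i => ?_⟩
    have h2 := (mag_lib d β 0 (m β)).1 (hm β hβ)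
    rw [mag_lib]
    refine h2.congr fun n => ?_
    rw [Pool.Agent.Lib.MP_6a79cf_pr.mag_eq β hβ _ 0 (zero_mem d n) 0,
      Pool.Agent.Lib.MP_6a79cf_pr.mag_eq β hβ _ 0 (zero_mem d n) i]
  obtain ⟨m, hm⟩ := hm
  refine ⟨m, hm, fun β hβ π hπ => ?_⟩
  haveI : IsProbabilityMeasure π := hπ.tig.gibbs.prob
  obtain ⟨i, h1, h2, h3⟩ := Pool.Agent.Lib.MP_6a79cf_pr.main2 hd (by rwa [Fintype.card_fin]) β hβ π
    (ext_lib hπ)
  rw [Fintype.card_fin] at h3
  have h4 : ∀ β', 0 < β' → β' < β → m β' ≤ (π {σ | σ 0 = i}).toReal := fun β' hβ' hlt =>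
    h2 β' (m β') hβ' hlt ((mag_lib d β' i (m β')).1 (hm β' hβ' i))
  refine ⟨i, h1, h4, Pool.Agent.Lib.MP_6a79cf_pr.mag_ge β hβ π (gibbs_lib.1 hπ.tig.gibbs) i (m β)
    ((mag_lib d β i (m β)).1 (hm β hβ i)), h3.imp (fun h => dominates hq π i h1 h) id, ?_⟩
  rintro ⟨β', hβ', hlt, hm'⟩
  exact dominates hq π i h1 (hm'.trans_le (h4 β' hβ' hlt))

end Pool.Agent.Results.MP_6a79cf_pr.OneColour
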